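import Mathlib

set_option autoImplicit false
set_option linter.unusedSectionVars false
set_option maxHeartbeats 4000000

namespace Pool.Agent.Results.MP_09df17_pr.Counterexample

open Finset Filter Topology


theorem liouville_abelian_aux {A S : Type} [AddCommGroup A] [Fintype S] (st : S → A) (F : A → ℝ)
    (C : ℝ) (hC : ∀ x, |F x| ≤ C) (hF : ∀ x, (Fintype.card S : ℝ) * F x = ∑ s, F (x + st s))
    (s0 : S) (x : A) : F (x + st s0) ≤ F x := by
  classical
  by_contra hcon
  push Not at hcon
  set g : A → ℝ := fun y => F (y + st s0) - F y with hg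
  have hgC : ∀ y, g y ≤ 2 * C := by
    intro y
    have h1 := abs_le.1 (hC (y + st s0))
    have h2 := abs_le.1 (hC y)
    simp only [hg]; linarith [h1.2, h2.1]
  have hbdd : BddAbove (Set.range g) := ⟨2 * C, by rintro _ ⟨y, rfl⟩; exact hgC y⟩
  set M := ⨆ y, g y with hM
  have hgM : ∀ y, g y ≤ M := fun y => le_ciSup hbdd y
  have hMpos : 0 < M := lt_of_lt_of_le (by simp only [hg]; linarith) (hgM x)
  have hgh : ∀ y, (Fintype.card S : ℝ) * g y = ∑ s, g (y + st s) := by
    intro y
    simp only [hg]
    rw [mul_sub, hF, hF, ← Finset.sum_sub_distrib]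
    refine Finset.sum_congr rfl fun s _ => ?_
    rw [add_right_comm]
  obtain ⟨m, hm⟩ : ∃ m : ℝ, m = ((Fintype.card S : ℕ) : ℝ) := ⟨_, rfl⟩
  rw [← hm] at hgh
  have hm1 : 1 ≤ m := by
    rw [hm]
    exact_mod_cast Fintype.card_pos_iff.2 ⟨s0⟩
  have hstep : ∀ y, M - g (y + st s0) ≤ m * (M - g y) := by
    intro y
    have h1 : ∑ s, g (y + st s) ≤ g (y + st s0) + (m - 1) * M := by
      rw [← Finset.add_sum_erase _ _ (Finset.mem_univ s0)]
      have : ∑ s ∈ Finset.univ.erase s0, g (y + st s) ≤ ∑ s ∈ Finset.univ.erase s0, M :=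
        Finset.sum_le_sum fun s _ => hgM _
      rw [Finset.sum_const, nsmul_eq_mul, Finset.card_erase_of_mem (Finset.mem_univ _), Finset.card_univ,
        Nat.cast_sub (Fintype.card_pos_iff.2 ⟨s0⟩)] at this
      rw [hm]
      simp only [Nat.cast_one] at this
      linarith
    have h2 := hgh y
    nlinarith
  have hiter : ∀ (k : ℕ) y, M - g (y + k • st s0) ≤ m ^ k * (M - g y) := by
    intro k
    induction k with
    | zero => intro y; simp
    | succ k ih =>
      intro y
      have h1 := hstep (y + k • st s0)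
      have h2 := ih y
      have h3 : y + (k+1) • st s0 = y + k • st s0 + st s0 := by rw [succ_nsmul, add_assoc]
      rw [h3, pow_succ]
      nlinarith
  obtain ⟨K, hK⟩ := exists_nat_gt (2 * (2 * C) / M)
  have hKM : 2 * C < K * (M / 2) := by
    rw [div_lt_iff₀ hMpos] at hK
    linarith
  have hε : 0 < M / 2 / m ^ K := by positivity
  obtain ⟨y, hy⟩ := exists_lt_of_lt_ciSup (show M - M / 2 / m ^ K < ⨆ y, g y by rw [← hM]; linarith)
  have hlow : ∀ k ≤ K, M / 2 ≤ g (y + k • st s0) := by
    intro k hk
    have h1 := hiter k y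
    have h2 : m ^ k * (M - g y) ≤ M / 2 := by
      calc m ^ k * (M - g y) ≤ m ^ k * (M / 2 / m ^ K) := by
            apply mul_le_mul_of_nonneg_left _ (by positivity); linarith
        _ ≤ m ^ K * (M / 2 / m ^ K) := by
            apply mul_le_mul_of_nonneg_right _ hε.le
            exact pow_le_pow_right₀ hm1 hk
        _ = M / 2 := by field_simp
    linarith
  have htel : ∀ k : ℕ, k ≤ K → k * (M / 2) ≤ F (y + k • st s0) - F y := by
    intro k
    induction k with
    | zero => intro _; simp
    | succ k ih =>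
      intro hk
      have h1 := ih (by omega)
      have h2 := hlow k (by omega)
      have h3 : y + (k+1) • st s0 = y + k • st s0 + st s0 := by rw [succ_nsmul, add_assoc]
      simp only [hg] at h2
      rw [h3]
      push_cast
      linarith
  have h1 := htel K le_rfl
  have h2 := abs_le.1 (hC (y + K • st s0))
  have h3 := abs_le.1 (hC y)
  linarith [h2.2, h3.1]

theorem liouville_abelian {A S : Type} [AddCommGroup A] [Fintype S] (st : S → A) (F : A → ℝ)
    (C : ℝ) (hC : ∀ x, |F x| ≤ C) (hF : ∀ x, (Fintype.card S : ℝ) * F x = ∑ s, F (x + st s))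
    (s0 : S) (x : A) : F (x + st s0) = F x := by
  apply le_antisymm (liouville_abelian_aux st F C hC hF s0 x)
  have := liouville_abelian_aux st (fun y => - F y) C (fun y => by rw [abs_neg]; exact hC y)
    (fun y => by simp only [mul_neg, Finset.sum_neg_distrib, hF]) s0 x
  linarith



/-- `Z^6` -/
abbrev W : Type := Fin 6 → ℤ

/-- directions: a coordinate and a sign -/
abbrev S : Type := Fin 6 × Bool

/-- the sign attached to a direction -/
def sg (b : Bool) : ℤ := if b then 1 else -1

/-- the unit vectors of `Z^6` -/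
def st (s : S) : W := Pi.single s.1 (sg s.2)

/-- the first coordinate axis of `Z^6` -/
def OnAxis (x : W) : Prop := ∀ i, i ≠ 0 → x i = 0

/-- the vertex set: `Z^6 × Z` -/
abbrev V : Type := W × ℤ

open Classical in
/-- the neighbour of `v` in direction `s` -/
noncomputable def nb (s : S) (v : V) : V :=
  (v.1 + st s, v.2 + if s.1 = 0 ∧ OnAxis v.1 then sg s.2 else 0)

theorem sg_not (b : Bool) : sg (!b) = - sg b := by cases b <;> simp [sg]

theorem sg_ne (b : Bool) : sg b ≠ 0 := by cases b <;> simp [sg]

theorem onAxis_add (i : Fin 6) (b : Bool) (x : W) (h : i = 0) : OnAxis (x + st (i, b)) ↔ OnAxis x := by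
  subst h
  unfold OnAxis st
  constructor
  · intro H j hj
    have := H j hj
    simpa [Pi.single_eq_of_ne hj] using this
  · intro H j hj
    have := H j hj
    simpa [Pi.single_eq_of_ne hj] using this

theorem nb_nb (s : S) (v : V) : nb (s.1, !s.2) (nb s v) = v := by
  obtain ⟨i, b⟩ := s
  obtain ⟨x, k⟩ := v
  unfold nb
  have h1 : st (i, !b) = - st (i, b) := by
    unfold st
    simp only [sg_not]
    rw [Pi.single_neg]
  simp only
  rw [Prod.mk.injEq]
  refine ⟨by rw [h1]; abel, ?_⟩
  by_cases hi : i = 0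
  · have h2 := onAxis_add i b x hi
    by_cases hx : OnAxis x
    · rw [if_pos ⟨hi, hx⟩, if_pos ⟨hi, h2.2 hx⟩, sg_not]; ring
    · rw [if_neg (fun h => hx h.2), if_neg (fun h => hx (h2.1 h.2))]; ring
  · rw [if_neg (fun h => hi h.1), if_neg (fun h => hi h.1)]; ring

theorem st_inj {s s' : S} (h : st s = st s') : s = s' := by
  obtain ⟨i, b⟩ := s
  obtain ⟨i', b'⟩ := s'
  unfold st at h
  simp only at h
  have hi : i = i' := by
    by_contra hne
    have := congrFun h i
    rw [Pi.single_eq_same, Pi.single_eq_of_ne hne] at this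
    exact sg_ne b this
  subst hi
  have := congrFun h i
  rw [Pi.single_eq_same, Pi.single_eq_same] at this
  cases b <;> cases b' <;> simp [sg] at this ⊢

theorem nb_inj {s s' : S} {v : V} (h : nb s v = nb s' v) : s = s' := by
  have := congrArg Prod.fst h
  simp only [nb] at this
  exact st_inj (add_left_cancel this)

theorem nb_ne (s : S) (v : V) : nb s v ≠ v := by
  intro h
  have := congrArg Prod.fst h
  simp only [nb] at this
  have h2 : st s = 0 := by simpa using this
  have h3 := congrFun h2 s.1
  unfold st at h3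
  rw [Pi.single_eq_same] at h3
  exact sg_ne _ h3

/-- the graph: two vertices are adjacent when one is the neighbour of the other in some direction -/
noncomputable def G : SimpleGraph V where
  Adj v w := ∃ s, nb s v = w
  symm := ⟨by
    rintro v w ⟨s, rfl⟩
    exact ⟨(s.1, !s.2), nb_nb s v⟩⟩
  loopless := ⟨by
    rintro v ⟨s, h⟩
    exact nb_ne s v h⟩

theorem adj_iff (v w : V) : G.Adj v w ↔ ∃ s, nb s v = w := Iff.rfl

noncomputable instance : G.LocallyFinite := fun v =>
  Fintype.ofFinset (Finset.univ.image (fun s => nb s v)) (fun w => by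
    rw [Finset.mem_image, SimpleGraph.mem_neighborSet, adj_iff]
    simp)

theorem nbr_eq (v : V) : G.neighborFinset v = Finset.univ.image (fun s => nb s v) := by
  ext w
  rw [SimpleGraph.mem_neighborFinset, Finset.mem_image, adj_iff]
  simp

theorem sum_nbr (v : V) (F : V → ℝ) : ∑ w ∈ G.neighborFinset v, F w = ∑ s, F (nb s v) := by
  rw [nbr_eq, Finset.sum_image]
  intro s _ s' _ h
  exact nb_inj h

theorem degree_eq (v : V) : G.degree v = 12 := by
  rw [← SimpleGraph.card_neighborFinset_eq_degree, nbr_eq, Finset.card_image_of_injective _ (fun s s' h => nb_inj h)]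
  simp



/-- `1 +` squared distance to the axis -/
noncomputable def Q (x : W) : ℝ := 1 + ∑ i : Fin 5, (x i.succ : ℝ) ^ 2

theorem Q_zero (x : W) (b : Bool) : Q (x + st (0, b)) = Q x := by
  unfold Q st
  congr 1
  refine Finset.sum_congr rfl fun i _ => ?_
  simp

theorem Q_succ (x : W) (i : Fin 5) (b : Bool) :
    Q (x + st (i.succ, b)) = Q x + 2 * sg b * x i.succ + 1 := by
  unfold Q st
  have h : ∀ j : Fin 5, (((x + Pi.single i.succ (sg b) : W) j.succ : ℤ) : ℝ) ^ 2
      = (x j.succ : ℝ) ^ 2 + (if j = i then 2 * (sg b : ℝ) * x i.succ + 1 else 0) := by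
    intro j
    by_cases hj : j = i
    · subst hj
      simp only [Pi.add_apply, Pi.single_eq_same, if_true]
      push_cast
      have : (sg b : ℝ) ^ 2 = 1 := by cases b <;> simp [sg]
      linear_combination this
    · have : j.succ ≠ i.succ := fun h => hj (Fin.succ_injective _ h)
      simp [hj]
  simp only [h]
  rw [Finset.sum_add_distrib, Finset.sum_ite_eq' Finset.univ i]
  simp
  ring

theorem Q_pos (x : W) : 1 ≤ Q x := by
  unfold Q
  have : 0 ≤ ∑ i : Fin 5, (x i.succ : ℝ) ^ 2 := Finset.sum_nonneg fun i _ => sq_nonneg _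
  linarith

theorem Q_axis (x : W) (h : OnAxis x) : Q x = 1 := by
  unfold Q
  have : ∀ i : Fin 5, (x i.succ : ℝ) ^ 2 = 0 := by
    intro i
    rw [h i.succ (Fin.succ_ne_zero i)]
    simp
  simp [this]

theorem sum_S (F : S → ℝ) : ∑ s, F s = (F (0, true) + F (0, false)) + ∑ i : Fin 5, (F (i.succ, true) + F (i.succ, false)) := by
  rw [Fintype.sum_prod_type, Fin.sum_univ_succ]
  simp

open Classical in
theorem superharm (x : W) :
    ∑ s, (Q (x + st s))⁻¹ ≤ 12 * (Q x)⁻¹ - 5 * (if OnAxis x then 1 else 0) := by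
  rw [sum_S, Q_zero, Q_zero]
  simp only [Q_succ]
  have hQ := Q_pos x
  by_cases hx : OnAxis x
  · have h1 : ∀ i : Fin 5, (x i.succ : ℝ) = 0 := by
      intro i
      rw [hx i.succ (Fin.succ_ne_zero i)]
      simp
    rw [if_pos hx, Q_axis x hx]
    simp [h1]
    norm_num
  · rw [if_neg hx]
    obtain ⟨R, hR⟩ : ∃ R, R = Q x := ⟨_, rfl⟩
    rw [← hR] at hQ ⊢
    have hsum : ∑ i : Fin 5, (x i.succ : ℝ) ^ 2 = R - 1 := by rw [hR]; unfold Q; ring
    have hyi : ∀ i : Fin 5, (x i.succ : ℝ) ^ 2 ≤ R - 1 := by
      intro i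
      rw [← hsum]
      exact Finset.single_le_sum (f := fun i : Fin 5 => (x i.succ : ℝ) ^ 2) (fun i _ => sq_nonneg _) (Finset.mem_univ i)
    have hD : 0 < (R - 1)^2 + 4 := by positivity
    have hterm : ∀ i : Fin 5, (R + 2 * (sg true : ℝ) * x i.succ + 1)⁻¹ + (R + 2 * (sg false : ℝ) * x i.succ + 1)⁻¹
        ≤ 2 / (R + 1) + 8 * (x i.succ : ℝ)^2 / ((R + 1) * ((R-1)^2 + 4)) := by
      intro i
      have hy := hyi i
      obtain ⟨y, hy'⟩ : ∃ y : ℝ, y = x i.succ := ⟨_, rfl⟩
      rw [← hy'] at hy ⊢
      simp only [sg]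
      have hpos : 0 < (R+1)^2 - 4 * y^2 := by nlinarith [sq_nonneg (R-1)]
      have ha : 0 < R + 2 * y + 1 := by nlinarith [sq_nonneg (y+1)]
      have hb : 0 < R - 2 * y + 1 := by nlinarith [sq_nonneg (y-1)]
      have e1 : (R + 2 * ((1:ℤ) : ℝ) * y + 1)⁻¹ + (R + 2 * ((-1 : ℤ) : ℝ) * y + 1)⁻¹ = 2 * (R+1) / ((R+1)^2 - 4 * y^2) := by
        push_cast
        have : (R+1)^2 - 4 * y^2 = (R + 2 * y + 1) * (R - 2 * y + 1) := by ring
        rw [this]
        have hb' : R + 2 * -1 * y + 1 = R - 2 * y + 1 := by ring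
        rw [hb']
        field_simp
        ring
      have e2 : 2 * (R+1) / ((R+1)^2 - 4 * y^2) = 2 / (R+1) + 8 * y^2 / ((R+1) * ((R+1)^2 - 4 * y^2)) := by
        have : (0:ℝ) < R + 1 := by linarith
        field_simp
        ring
      simp only [if_true, Bool.false_eq_true, if_false]
      rw [e1, e2]
      have h3 : (R-1)^2 + 4 ≤ (R+1)^2 - 4 * y^2 := by nlinarith
      have : (0:ℝ) < R + 1 := by linarith
      gcongr
    have htot : ∑ i : Fin 5, ((R + 2 * (sg true : ℝ) * x i.succ + 1)⁻¹ + (R + 2 * (sg false : ℝ) * x i.succ + 1)⁻¹)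
        ≤ 10 / (R + 1) + 8 * (R - 1) / ((R + 1) * ((R-1)^2 + 4)) := by
      refine (Finset.sum_le_sum fun i _ => hterm i).trans (le_of_eq ?_)
      rw [Finset.sum_add_distrib, ← Finset.sum_div Finset.univ (fun i : Fin 5 => 8 * (x i.succ : ℝ)^2),
        ← Finset.mul_sum, hsum, Finset.sum_const, nsmul_eq_mul]
      simp
      ring
    have hfin : 10 / (R + 1) + 8 * (R - 1) / ((R + 1) * ((R-1)^2 + 4)) ≤ 10 / R := by
      have h1 : (0:ℝ) < R + 1 := by linarith
      have h2 : (0:ℝ) < R := by linarith
      rw [div_add_div _ _ h1.ne' (by positivity), div_le_div_iff₀ (by positivity) h2]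
      have : 0 ≤ (R+1) * (2 * R^2 - 12 * R + 50) := by
        apply mul_nonneg h1.le
        nlinarith [sq_nonneg (R - 3)]
      nlinarith
    have h3 : 10 / R = 10 * R⁻¹ := by rw [div_eq_mul_inv]
    linarith



/-- averaging operator -/
noncomputable def T (F : V → ℝ) (v : V) : ℝ := (∑ s, F (nb s v)) / 12

theorem T_mono {F F' : V → ℝ} (h : ∀ v, F v ≤ F' v) (v : V) : T F v ≤ T F' v := by
  unfold T
  gcongr with s
  exact h _

theorem T_const (c : ℝ) (v : V) : T (fun _ => c) v = c := by
  unfold T
  simp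

theorem T_abs (F : V → ℝ) (v : V) : |T F v| ≤ T (fun w => |F w|) v := by
  unfold T
  rw [abs_div, abs_of_pos (show (0:ℝ) < 12 by norm_num)]
  gcongr
  exact Finset.abs_sum_le_sum_abs _ _

theorem T_sub (F F' : V → ℝ) (v : V) : T (fun w => F w - F' w) v = T F v - T F' v := by
  unfold T
  rw [Finset.sum_sub_distrib, sub_div]

theorem T_smul (c : ℝ) (F : V → ℝ) (v : V) : T (fun w => c * F w) v = c * T F v := by
  unfold T
  rw [← Finset.mul_sum, mul_div_assoc]

open Classical in
/-- indicator of the axis -/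
noncomputable def L (v : V) : ℝ := if OnAxis v.1 then 1 else 0

/-- indicator of level zero -/
noncomputable def chi (v : V) : ℝ := if v.2 = 0 then 1 else 0

/-- the superharmonic function -/
noncomputable def uu (v : V) : ℝ := (Q v.1)⁻¹

theorem T_uu (v : V) : T uu v ≤ uu v - 5 / 12 * L v := by
  unfold T uu L
  have h := superharm v.1
  simp only [nb]
  linarith

theorem chi_diff (v : V) : |T chi v - chi v| ≤ L v := by
  unfold L
  split_ifs with h
  · have h1 : 0 ≤ T chi v := by
      have : T (fun _ => (0:ℝ)) v ≤ T chi v := T_mono (fun w => by unfold chi; split_ifs <;> simp) v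
      rwa [T_const] at this
    have h2 : T chi v ≤ 1 := by
      have : T chi v ≤ T (fun _ => (1:ℝ)) v := T_mono (fun w => by unfold chi; split_ifs <;> simp) v
      rwa [T_const] at this
    have h3 : 0 ≤ chi v := by unfold chi; split_ifs <;> simp
    have h4 : chi v ≤ 1 := by unfold chi; split_ifs <;> simp
    rw [abs_le]
    constructor <;> linarith
  · have : T chi v = chi v := by
      unfold T
      have h1 : ∀ s, chi (nb s v) = chi v := by
        intro s
        unfold chi nb
        simp [h]
      simp [h1]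
    rw [this]; simp

/-- iterates of `T` -/
noncomputable def TT (n : ℕ) (F : V → ℝ) : V → ℝ := T^[n] F

theorem TT_succ (n : ℕ) (F : V → ℝ) : TT (n+1) F = T (TT n F) := by
  unfold TT; rw [Function.iterate_succ_apply']

theorem TT_mono (n : ℕ) {F F' : V → ℝ} (h : ∀ v, F v ≤ F' v) (v : V) : TT n F v ≤ TT n F' v := by
  induction n generalizing v with
  | zero => exact h v
  | succ n ih => rw [TT_succ, TT_succ]; exact T_mono ih v

theorem TT_L_sum (N : ℕ) (v : V) :
    ∑ n ∈ Finset.range N, TT n L v + 12 / 5 * TT N uu v ≤ 12 / 5 * uu v := by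
  have key : ∀ n v, TT n (T uu) v ≤ TT n uu v - 5 / 12 * TT n L v := by
    intro n
    induction n with
    | zero => intro v; exact T_uu v
    | succ n ih =>
      intro v
      rw [TT_succ, TT_succ, TT_succ]
      calc T (TT n (T uu)) v ≤ T (fun w => TT n uu w - 5 / 12 * TT n L w) v := T_mono ih v
        _ = _ := by rw [T_sub, T_smul]
  induction N with
  | zero => simp [TT]
  | succ N ih =>
    rw [Finset.sum_range_succ]
    have h1 : TT (N+1) uu v = TT N (T uu) v := by
      unfold TT; rw [Function.iterate_succ_apply]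
    have := key N v
    rw [h1]
    linarith

theorem TT_nonneg (n : ℕ) {F : V → ℝ} (h : ∀ v, 0 ≤ F v) (v : V) : 0 ≤ TT n F v := by
  have h0 : ∀ n, TT n (fun _ => (0:ℝ)) = fun _ => 0 := by
    intro n
    induction n with
    | zero => rfl
    | succ n ih => rw [TT_succ, ih]; funext v; exact T_const 0 v
  have := TT_mono n (F := fun _ => (0:ℝ)) h v
  rw [h0] at this
  exact this

theorem L_nonneg (v : V) : 0 ≤ L v := by unfold L; split_ifs <;> simp

theorem uu_nonneg (v : V) : 0 ≤ uu v := by
  unfold uu
  have := Q_pos v.1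
  positivity

theorem sum_L_le (v : V) (N : ℕ) : ∑ n ∈ Finset.range N, TT n L v ≤ 12 / 5 * uu v := by
  have h1 := TT_L_sum N v
  have h2 := TT_nonneg N uu_nonneg v
  linarith

theorem summable_L (v : V) : Summable (fun n => TT n L v) :=
  summable_of_sum_range_le (fun n => TT_nonneg n L_nonneg v) (sum_L_le v)

theorem tsum_L (v : V) : ∑' n, TT n L v ≤ 12 / 5 * uu v :=
  (summable_L v).tsum_le_of_sum_range_le (sum_L_le v)

theorem chi_step (n : ℕ) (v : V) : dist (TT n chi v) (TT (n+1) chi v) ≤ TT n L v := by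
  induction n generalizing v with
  | zero =>
    rw [Real.dist_eq, abs_sub_comm]
    exact chi_diff v
  | succ n ih =>
    rw [TT_succ (n+1), TT_succ n chi, TT_succ n L, Real.dist_eq, ← T_sub]
    refine (T_abs _ v).trans (T_mono (fun w => ?_) v)
    have := ih w
    rw [Real.dist_eq, TT_succ] at this
    exact this

/-- The walk's level converges: the limiting function. -/
theorem exists_limit : ∃ h : V → ℝ, (∀ v, T h v = h v) ∧ (∀ v, 0 ≤ h v) ∧ (∀ v, h v ≤ 1) ∧
    ∀ v, |chi v - h v| ≤ 12 / 5 * uu v := by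
  have hc : ∀ v, ∃ a, Tendsto (fun n => TT n chi v) atTop (𝓝 a) := fun v =>
    cauchySeq_tendsto_of_complete (cauchySeq_of_dist_le_of_summable _ (fun n => chi_step n v) (summable_L v))
  choose h hh using hc
  refine ⟨h, fun v => ?_, fun v => ?_, fun v => ?_, fun v => ?_⟩
  · have h1 : Tendsto (fun n => TT (n+1) chi v) atTop (𝓝 (h v)) := (tendsto_add_atTop_iff_nat 1).2 (hh v)
    have h2 : Tendsto (fun n => TT (n+1) chi v) atTop (𝓝 (T h v)) := by
      simp only [TT_succ]
      unfold T
      exact Tendsto.div_const (tendsto_finsetSum _ fun s _ => hh (nb s v)) _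
    exact tendsto_nhds_unique h2 h1
  · exact ge_of_tendsto' (hh v) fun n => TT_nonneg n (fun w => by unfold chi; split_ifs <;> simp) v
  · refine le_of_tendsto' (hh v) fun n => ?_
    have h1 : ∀ n, TT n (fun _ => (1:ℝ)) = fun _ => 1 := by
      intro n
      induction n with
      | zero => rfl
      | succ n ih => rw [TT_succ, ih]; funext v; exact T_const 1 v
    have := TT_mono n (F := chi) (F' := fun _ => (1:ℝ)) (fun w => by unfold chi; split_ifs <;> simp) v
    rw [h1] at this
    exact this
  · have := dist_le_tsum_of_dist_le_of_tendsto₀ _ (fun n => chi_step n v) (summable_L v) (hh v)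
    rw [Real.dist_eq] at this
    exact this.trans (tsum_L v)

/-- a bounded non-constant harmonic function on `G` -/
theorem not_liouville : ∃ h : V → ℝ, (∀ v, |h v| ≤ 1) ∧
    (∀ v, (G.degree v : ℝ) * h v = ∑ w ∈ G.neighborFinset v, h w) ∧ ∃ v w, h v ≠ h w := by
  obtain ⟨h, h1, h2, h3, h4⟩ := exists_limit
  refine ⟨h, fun v => ?_, fun v => ?_, ?_⟩
  · rw [abs_of_nonneg (h2 v)]; exact h3 v
  · rw [sum_nbr, degree_eq]
    have := h1 v
    unfold T at this
    rw [div_eq_iff (by norm_num)] at this
    rw [this]; push_cast; ring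
  · set x0 : W := fun i => if i = 1 then 2 else 0 with hx0
    have hQ : Q x0 = 5 := by
      unfold Q
      rw [hx0, Fin.sum_univ_five]
      simp [Fin.ext_iff]
      norm_num
    refine ⟨(x0, 0), (x0, 1), ?_⟩
    have ha := h4 (x0, 0)
    have hb := h4 (x0, 1)
    simp only [uu, chi, hQ] at ha hb
    rw [abs_le] at ha hb
    norm_num at ha hb
    intro hcon
    linarith [ha.1, ha.2, hb.1, hb.2]



/-- a bounded sequence that starts at a nonpositive value and is convex is nonpositive -/
theorem convex_bdd (a : ℕ → ℝ) (C : ℝ) (hC : ∀ n, a n ≤ C) (h0 : a 0 ≤ 0)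
    (hconv : ∀ n, 2 * a (n+1) ≤ a n + a (n+2)) (n : ℕ) : a n ≤ 0 := by
  by_contra hcon
  push Not at hcon
  have hex : ∃ j, 0 < a (j+1) - a j := by
    by_contra hno
    push Not at hno
    have : ∀ m, a m ≤ a 0 := by
      intro m
      induction m with
      | zero => exact le_rfl
      | succ m ih => linarith [hno m]
    linarith [this n]
  obtain ⟨j, hj⟩ := hex
  have hd : ∀ l : ℕ, a (j+1) - a j ≤ a (j+l+1) - a (j+l) := by
    intro l
    induction l with
    | zero => exact le_rfl
    | succ l ih =>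
      have := hconv (j+l)
      have e : j + (l+1) = j + l + 1 := by ring
      rw [e]
      linarith
  have hs : ∀ l : ℕ, a j + l * (a (j+1) - a j) ≤ a (j+l) := by
    intro l
    induction l with
    | zero => simp
    | succ l ih =>
      have := hd l
      have e : j + (l+1) = j + l + 1 := by ring
      rw [e]
      push_cast
      linarith
  obtain ⟨l, hl⟩ := exists_nat_gt ((C - a j) / (a (j+1) - a j))
  rw [div_lt_iff₀ hj] at hl
  linarith [hs l, hC (j+l)]

/-- the coordinate that labels the translates of the domain -/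
def zz (v : V) : ℤ := v.2 - v.1 0

theorem zz_nb_succ (i : Fin 5) (b : Bool) (v : V) : zz (nb (i.succ, b) v) = zz v := by
  unfold zz nb st
  simp [Fin.succ_ne_zero]

open Classical in
theorem zz_nb_zero (b : Bool) (v : V) :
    zz (nb (0, b) v) = if OnAxis v.1 then zz v else zz v - sg b := by
  unfold zz nb st
  by_cases h : OnAxis v.1
  · simp [h]
  · simp [h]; ring

theorem not_onAxis_succ (i : Fin 5) (b : Bool) (v : V) (h : OnAxis v.1) :
    ¬ OnAxis (nb (i.succ, b) v).1 := by
  intro h2
  have h3 := h2 i.succ (Fin.succ_ne_zero i)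
  unfold nb st at h3
  simp only [Pi.add_apply, Pi.single_eq_same] at h3
  rw [h i.succ (Fin.succ_ne_zero i)] at h3
  simp at h3
  exact sg_ne b h3

/-- probability of not meeting level `k` of `zz` during the first `N` steps -/
noncomputable def gg (k : ℤ) : ℕ → V → ℝ
  | 0, v => if zz v = k then 0 else 1
  | (N+1), v => if zz v = k then 0 else T (gg k N) v

theorem gg_nonneg (k : ℤ) (N : ℕ) (v : V) : 0 ≤ gg k N v := by
  induction N generalizing v with
  | zero => unfold gg; split_ifs <;> simp
  | succ N ih =>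
    unfold gg
    split_ifs
    · exact le_rfl
    · have := T_mono (F := fun _ => (0:ℝ)) (fun w => ih w) v
      rwa [T_const] at this

theorem gg_le_one (k : ℤ) (N : ℕ) (v : V) : gg k N v ≤ 1 := by
  induction N generalizing v with
  | zero => unfold gg; split_ifs <;> simp
  | succ N ih =>
    unfold gg
    split_ifs
    · simp
    · have := T_mono (F' := fun _ => (1:ℝ)) (fun w => ih w) v
      rwa [T_const] at this

theorem gg_anti (k : ℤ) (N : ℕ) (v : V) : gg k (N+1) v ≤ gg k N v := by
  induction N generalizing v with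
  | zero =>
    by_cases h : zz v = k
    · simp [gg, h]
    · have h1 : gg k 0 v = 1 := by simp [gg, h]
      rw [h1]
      exact gg_le_one k 1 v
  | succ N ih =>
    by_cases h : zz v = k
    · simp [gg, h]
    · have h1 : gg k (N+1) v = T (gg k N) v := by simp [gg, h]
      have h2 : gg k (N+1+1) v = T (gg k (N+1)) v := by
        show (if zz v = k then 0 else T (gg k (N+1)) v) = _
        rw [if_neg h]
      rw [h1, h2]
      exact T_mono ih v

theorem gg_tendsto (k : ℤ) (v : V) : Tendsto (fun N => gg k N v) atTop (𝓝 0) := by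
  classical
  -- the limit
  have hlim : ∀ v, ∃ a, Tendsto (fun N => gg k N v) atTop (𝓝 a) := fun v =>
    ⟨_, tendsto_atTop_ciInf (antitone_nat_of_succ_le fun N => gg_anti k N v)
      ⟨0, by rintro _ ⟨n, rfl⟩; exact gg_nonneg k n v⟩⟩
  choose g hg using hlim
  have g0 : ∀ v, 0 ≤ g v := fun v => ge_of_tendsto' (hg v) fun n => gg_nonneg k n v
  have g1 : ∀ v, g v ≤ 1 := fun v => le_of_tendsto' (hg v) fun n => gg_le_one k n v
  have gk : ∀ v, zz v = k → g v = 0 := by
    intro v hv
    have : (fun N => gg k N v) = fun _ => 0 := by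
      funext N
      cases N <;> simp [gg, hv]
    have h := hg v
    rw [this] at h
    exact tendsto_nhds_unique h tendsto_const_nhds
  have gT : ∀ v, zz v ≠ k → g v = T g v := by
    intro v hv
    have h1 : Tendsto (fun N => gg k (N+1) v) atTop (𝓝 (g v)) := (tendsto_add_atTop_iff_nat 1).2 (hg v)
    have h2 : Tendsto (fun N => gg k (N+1) v) atTop (𝓝 (T g v)) := by
      have : (fun N => gg k (N+1) v) = fun N => T (gg k N) v := by
        funext N
        show (if zz v = k then 0 else T (gg k N) v) = _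
        rw [if_neg hv]
      rw [this]
      unfold T
      exact Tendsto.div_const (tendsto_finsetSum _ fun s _ => hg (nb s v)) _
    exact tendsto_nhds_unique h1 h2
  -- suprema over levels
  set M : ℤ → ℝ := fun j => ⨆ v : {v : V // zz v = j}, g v.1 with hM
  have hne : ∀ j, Nonempty {v : V // zz v = j} := fun j => ⟨⟨(0, j), by simp [zz]⟩⟩
  have hbd : ∀ j, BddAbove (Set.range fun v : {v : V // zz v = j} => g v.1) := fun j =>
    ⟨1, by rintro _ ⟨v, rfl⟩; exact g1 v.1⟩
  have hgM : ∀ v, g v ≤ M (zz v) := fun v => le_ciSup (hbd (zz v)) ⟨v, rfl⟩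
  have hgM' : ∀ v j, zz v = j → g v ≤ M j := by intro v j h; rw [← h]; exact hgM v
  have hMle : ∀ j C, (∀ v, zz v = j → g v ≤ C) → M j ≤ C := by
    intro j C h
    have := hne j
    exact ciSup_le fun v => h v.1 v.2
  have hTexp : ∀ v, T g v = ((g (nb (0, true) v) + g (nb (0, false) v))
      + ∑ i : Fin 5, (g (nb (i.succ, true) v) + g (nb (i.succ, false) v))) / 12 := by
    intro v
    unfold T
    rw [sum_S (fun s => g (nb s v))]
  have hoff : ∀ j, j ≠ k → ∀ v, zz v = j → ¬ OnAxis v.1 → g v ≤ (M (j-1) + M (j+1) + 10 * M j) / 12 := by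
    intro j hj v hv hax
    rw [gT v (by rw [hv]; exact hj), hTexp]
    have a1 : g (nb (0, true) v) ≤ M (j-1) := by
      apply hgM'
      rw [zz_nb_zero, if_neg hax, hv]; rfl
    have a2 : g (nb (0, false) v) ≤ M (j+1) := by
      apply hgM'
      rw [zz_nb_zero, if_neg hax, hv]; simp [sg]
    have a3 : ∑ i : Fin 5, (g (nb (i.succ, true) v) + g (nb (i.succ, false) v)) ≤ ∑ i : Fin 5, (M j + M j) := by
      refine Finset.sum_le_sum fun i _ => add_le_add ?_ ?_ <;>
      · apply hgM'
        rw [zz_nb_succ, hv]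
    rw [Finset.sum_const, Finset.card_univ, Fintype.card_fin, nsmul_eq_mul] at a3
    push_cast at a3
    linarith
  have hmain : ∀ j, j ≠ k → 2 * M j ≤ M (j-1) + M (j+1) := by
    intro j hj
    set B := (M (j-1) + M (j+1) + 10 * M j) / 12 with hB
    have hall : ∀ v, zz v = j → g v ≤ max B ((2 * M j + 10 * B) / 12) := by
      intro v hv
      by_cases hax : OnAxis v.1
      · refine le_trans ?_ (le_max_right _ _)
        rw [gT v (by rw [hv]; exact hj), hTexp]
        have a1 : g (nb (0, true) v) ≤ M j := by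
          apply hgM'; rw [zz_nb_zero, if_pos hax, hv]
        have a2 : g (nb (0, false) v) ≤ M j := by
          apply hgM'; rw [zz_nb_zero, if_pos hax, hv]
        have a3 : ∑ i : Fin 5, (g (nb (i.succ, true) v) + g (nb (i.succ, false) v)) ≤ ∑ i : Fin 5, (B + B) := by
          refine Finset.sum_le_sum fun i _ => add_le_add ?_ ?_ <;>
          · apply hoff j hj
            · rw [zz_nb_succ, hv]
            · exact not_onAxis_succ i _ v hax
        rw [Finset.sum_const, Finset.card_univ, Fintype.card_fin, nsmul_eq_mul] at a3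
        push_cast at a3
        linarith
      · exact (hoff j hj v hv hax).trans (le_max_left _ _)
    have h1 := hMle j _ hall
    rcases le_max_iff.1 h1 with h2 | h2
    · rw [hB] at h2; linarith
    · have h3 : M j ≤ B := by linarith
      rw [hB] at h3; linarith
  have hMk : M k ≤ 0 := hMle k 0 fun v hv => (gk v hv).le
  have hM1 : ∀ j, M j ≤ 1 := fun j => hMle j 1 fun v _ => g1 v
  have hup : ∀ n : ℕ, M (k + n) ≤ 0 := by
    refine convex_bdd (fun n : ℕ => M (k + n)) 1 (fun n => hM1 _) (by simpa using hMk) (fun n => ?_)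
    have := hmain (k + ((n+1 : ℕ) : ℤ)) (by push_cast; omega)
    have e1 : k + ((n+1 : ℕ) : ℤ) - 1 = k + n := by push_cast; ring
    have e2 : k + ((n+1 : ℕ) : ℤ) + 1 = k + ((n+2 : ℕ) : ℤ) := by push_cast; ring
    rw [e1, e2] at this
    exact this
  have hdown : ∀ n : ℕ, M (k - n) ≤ 0 := by
    refine convex_bdd (fun n : ℕ => M (k - n)) 1 (fun n => hM1 _) (by simpa using hMk) (fun n => ?_)
    have := hmain (k - ((n+1 : ℕ) : ℤ)) (by push_cast; omega)
    have e1 : k - ((n+1 : ℕ) : ℤ) - 1 = k - ((n+2 : ℕ) : ℤ) := by push_cast; ring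
    have e2 : k - ((n+1 : ℕ) : ℤ) + 1 = k - n := by push_cast; ring
    rw [e1, e2] at this
    show 2 * M (k - ((n+1 : ℕ) : ℤ)) ≤ M (k - (n : ℕ)) + M (k - ((n+2 : ℕ) : ℤ))
    linarith
  have hM0 : ∀ j, M j ≤ 0 := by
    intro j
    rcases le_total k j with h | h
    · obtain ⟨n, hn⟩ := Int.le.dest h
      rw [← hn]; exact hup n
    · obtain ⟨n, hn⟩ := Int.le.dest h
      have : j = k - n := by omega
      rw [this]; exact hdown n
  have hgz : g v = 0 := le_antisymm ((hgM v).trans (hM0 _)) (g0 v)
  rw [← hgz]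
  exact hg v



/-- the fundamental domain -/
def D : Set V := {v | v.2 = v.1 0}

theorem mem_D (v : V) : v ∈ D ↔ zz v = 0 := by
  unfold D zz
  rw [Set.mem_ofPred_eq]
  omega

/-- size of a point of `Z^6` -/
def siz (x : W) : ℕ := ∑ i, (x i).natAbs

theorem siz_dec (x : W) (i : Fin 6) (hx : x i ≠ 0) : ∃ b, siz (x + st (i, b)) < siz x := by
  have key : ∀ b, (x i + sg b).natAbs < (x i).natAbs → siz (x + st (i, b)) < siz x := by
    intro b hb
    unfold siz
    refine Finset.sum_lt_sum (fun j _ => ?_) ⟨i, Finset.mem_univ i, ?_⟩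
    · unfold st
      by_cases hj : j = i
      · subst hj
        simp only [Pi.add_apply, Pi.single_eq_same]
        exact hb.le
      · simp [Pi.single_eq_of_ne hj]
    · unfold st
      simp only [Pi.add_apply, Pi.single_eq_same]
      exact hb
  rcases lt_or_gt_of_ne hx with h | h
  · exact ⟨true, key true (by simp only [sg, if_true]; omega)⟩
  · exact ⟨false, key false (by simp only [sg, Bool.false_eq_true, if_false]; omega)⟩

theorem D_reach (n : ℕ) : ∀ v : V, ∀ hv : v ∈ D, siz v.1 = n →
    (G.induce D).Reachable ⟨v, hv⟩ ⟨((0 : W), (0 : ℤ)), by simp [D]⟩ := by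
  induction n using Nat.strong_induction_on with
  | _ n ih =>
    intro v hv hn
    -- one step inside the domain that lowers the size suffices
    have step : ∀ s : S, nb s v ∈ D → siz (nb s v).1 < n →
        (G.induce D).Reachable ⟨v, hv⟩ ⟨((0 : W), (0 : ℤ)), by simp [D]⟩ := by
      intro s hs hlt
      have h1 : (G.induce D).Adj ⟨v, hv⟩ ⟨nb s v, hs⟩ := by
        rw [SimpleGraph.comap_adj]
        exact ⟨s, rfl⟩
      exact h1.reachable.trans (ih _ hlt (nb s v) hs rfl)
    by_cases hax : OnAxis v.1
    · by_cases h0 : v.1 0 = 0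
      · have : v = ((0 : W), (0 : ℤ)) := by
          have h1 : v.2 = v.1 0 := hv
          refine Prod.ext ?_ ?_
          · funext i
            by_cases hi : i = 0
            · rw [hi]; exact h0
            · exact hax i hi
          · rw [h1, h0]
        subst this
        exact SimpleGraph.Reachable.refl _
      · obtain ⟨b, hb⟩ := siz_dec v.1 0 h0
        refine step (0, b) ?_ ?_
        · rw [mem_D, zz_nb_zero, if_pos hax]
          exact (mem_D v).1 hv
        · rw [← hn]
          exact hb
    · unfold OnAxis at hax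
      push Not at hax
      obtain ⟨i, hi, hxi⟩ := hax
      obtain ⟨b, hb⟩ := siz_dec v.1 i hxi
      obtain ⟨j, rfl⟩ := Fin.exists_succ_eq.2 hi
      refine step (j.succ, b) ?_ ?_
      · rw [mem_D, zz_nb_succ]
        exact (mem_D v).1 hv
      · rw [← hn]
        exact hb

theorem D_connected : (G.induce D).Connected := by
  rw [SimpleGraph.connected_iff_exists_forall_reachable]
  exact ⟨⟨((0 : W), (0 : ℤ)), by simp [D]⟩, fun w => (D_reach _ w.1 w.2 rfl).symm⟩

theorem off_reach (n : ℕ) : ∀ v : V, ¬ OnAxis v.1 → (zz v).natAbs = n → ∃ w ∈ D, G.Reachable v w := by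
  induction n with
  | zero =>
    intro v _ hn
    exact ⟨v, (mem_D v).2 (by omega), SimpleGraph.Reachable.refl _⟩
  | succ n ih =>
    intro v hv hn
    have step : ∀ b, (zz v - sg b).natAbs = n → ∃ w ∈ D, G.Reachable v w := by
      intro b hb
      have h1 : ¬ OnAxis (nb (0, b) v).1 := by
        intro h
        exact hv ((onAxis_add 0 b v.1 rfl).1 h)
      have h2 : zz (nb (0, b) v) = zz v - sg b := by rw [zz_nb_zero, if_neg hv]
      obtain ⟨w, hw, hr⟩ := ih (nb (0, b) v) h1 (by rw [h2]; exact hb)
      have hadj : G.Adj v (nb (0, b) v) := ⟨(0, b), rfl⟩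
      exact ⟨w, hw, hadj.reachable.trans hr⟩
    rcases lt_or_ge 0 (zz v) with h | h
    · exact step true (by simp only [sg, if_true]; omega)
    · exact step false (by simp only [sg, Bool.false_eq_true, if_false]; omega)

theorem G_connected : G.Connected := by
  rw [SimpleGraph.connected_iff_exists_forall_reachable]
  refine ⟨((0 : W), (0 : ℤ)), fun v => ?_⟩
  have h1 : ∃ w ∈ D, G.Reachable v w := by
    by_cases hv : OnAxis v.1
    · obtain ⟨w, hw, hr⟩ := off_reach _ (nb ((0 : Fin 5).succ, true) v) (not_onAxis_succ 0 true v hv) rfl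
      have hadj : G.Adj v (nb ((0 : Fin 5).succ, true) v) := ⟨_, rfl⟩
      exact ⟨w, hw, hadj.reachable.trans hr⟩
    · exact off_reach _ v hv rfl
  obtain ⟨w, hw, hr⟩ := h1
  have h2 := (D_reach _ w hw rfl).map (SimpleGraph.Embedding.induce D).toHom
  exact (hr.trans h2).symm

/-- the action of `Z` that shifts the level -/
@[implicit_reducible] def act : AddAction ℤ V where
  vadd k v := (v.1, k + v.2)
  zero_vadd v := by
    show (v.1, 0 + v.2) = v
    rw [zero_add]
  add_vadd k l v := by
    show (v.1, k + l + v.2) = (v.1, k + (l + v.2))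
    rw [add_assoc]

theorem nb_act (s : S) (k : ℤ) (v : V) : nb s (v.1, k + v.2) = ((nb s v).1, k + (nb s v).2) := by
  unfold nb
  simp only [Prod.mk.injEq, true_and]
  ring



open MeasureTheory

open Classical in
/-- `X` is simple random walk on the graph `G`, started at `x`, on the probability space `(Ω, P)`:
the probability of following a given path for `n` steps is the product of the inverse degrees. -/
structure IsSRW {V Ω : Type} [MeasurableSpace Ω] (G : SimpleGraph V) [G.LocallyFinite] (x : V)
    (P : Measure Ω) (X : ℕ → Ω → V) : Prop where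
  prob : IsProbabilityMeasure P
  meas : ∀ n v, MeasurableSet {ω | X n ω = v}
  law : ∀ (n : ℕ) (p : ℕ → V), P {ω | ∀ i ≤ n, X i ω = p i} =
    (if p 0 = x then 1 else 0) *
      ∏ i ∈ Finset.range n, (if G.Adj (p i) (p (i+1)) then ((G.degree (p i) : ENNReal))⁻¹ else 0)

theorem srw_step {Ω : Type} [MeasurableSpace Ω] (x : V) (P : Measure Ω) (X : ℕ → Ω → V)
    (h : IsSRW G x P X) (n : ℕ) (p : ℕ → V) (w : V) :
    P {ω | ∀ i ≤ n + 1, X i ω = Function.update p (n+1) w i}
      = P {ω | ∀ i ≤ n, X i ω = p i} * (open Classical in if G.Adj (p n) w then (12 : ENNReal)⁻¹ else 0) := by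
  classical
  rw [h.law, h.law, Finset.prod_range_succ, ← mul_assoc]
  have h0 : Function.update p (n+1) w 0 = p 0 := Function.update_of_ne (by omega) _ _
  have hn : Function.update p (n+1) w n = p n := Function.update_of_ne (by omega) _ _
  have hn1 : Function.update p (n+1) w (n+1) = w := Function.update_self _ _ _
  rw [h0, hn, hn1, degree_eq]
  congr 2
  refine Finset.prod_congr rfl fun i hi => ?_
  rw [Finset.mem_range] at hi
  rw [Function.update_of_ne (by omega), Function.update_of_ne (by omega)]

theorem srw_avoid {Ω : Type} [MeasurableSpace Ω] (x : V) (P : Measure Ω) (X : ℕ → Ω → V)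
    (h : IsSRW G x P X) (k : ℤ) (N : ℕ) : ∀ (n : ℕ) (p : ℕ → V),
    P {ω | (∀ i ≤ n, X i ω = p i) ∧ ∀ m, n ≤ m → m ≤ n + N → zz (X m ω) ≠ k}
      ≤ P {ω | ∀ i ≤ n, X i ω = p i} * ENNReal.ofReal (gg k N (p n)) := by
  classical
  induction N with
  | zero =>
    intro n p
    by_cases hk : zz (p n) = k
    · have : {ω | (∀ i ≤ n, X i ω = p i) ∧ ∀ m, n ≤ m → m ≤ n + 0 → zz (X m ω) ≠ k} = ∅ := by
        ext ω
        simp only [Set.mem_ofPred_eq, Set.mem_empty_iff_false, iff_false, not_and]
        intro h1 h2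
        exact h2 n le_rfl (by omega) (by rw [h1 n le_rfl]; exact hk)
      rw [this]; simp
    · have : gg k 0 (p n) = 1 := by simp [gg, hk]
      rw [this, ENNReal.ofReal_one, mul_one]
      exact measure_mono fun ω hω => hω.1
  | succ N ih =>
    intro n p
    by_cases hk : zz (p n) = k
    · have : {ω | (∀ i ≤ n, X i ω = p i) ∧ ∀ m, n ≤ m → m ≤ n + (N+1) → zz (X m ω) ≠ k} = ∅ := by
        ext ω
        simp only [Set.mem_ofPred_eq, Set.mem_empty_iff_false, iff_false, not_and]
        intro h1 h2
        exact h2 n le_rfl (by omega) (by rw [h1 n le_rfl]; exact hk)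
      rw [this]; simp
    · have hgg : gg k (N+1) (p n) = T (gg k N) (p n) := by
        show (if zz (p n) = k then 0 else T (gg k N) (p n)) = _
        rw [if_neg hk]
      have hsub : {ω | (∀ i ≤ n, X i ω = p i) ∧ ∀ m, n ≤ m → m ≤ n + (N+1) → zz (X m ω) ≠ k}
          ⊆ ⋃ w : V, {ω | (∀ i ≤ n+1, X i ω = Function.update p (n+1) w i) ∧
              ∀ m, n+1 ≤ m → m ≤ n + 1 + N → zz (X m ω) ≠ k} := by
        intro ω hω
        obtain ⟨h1, h2⟩ := hω
        rw [Set.mem_iUnion]
        refine ⟨X (n+1) ω, fun i hi => ?_, fun m hm1 hm2 => h2 m (by omega) (by omega)⟩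
        by_cases hi' : i = n + 1
        · subst hi'; rw [Function.update_self]
        · rw [Function.update_of_ne hi']; exact h1 i (by omega)
      calc P {ω | (∀ i ≤ n, X i ω = p i) ∧ ∀ m, n ≤ m → m ≤ n + (N+1) → zz (X m ω) ≠ k}
          ≤ ∑' w : V, P {ω | (∀ i ≤ n+1, X i ω = Function.update p (n+1) w i) ∧
              ∀ m, n+1 ≤ m → m ≤ n + 1 + N → zz (X m ω) ≠ k} :=
            (measure_mono hsub).trans (measure_iUnion_le _)
        _ ≤ ∑' w : V, P {ω | ∀ i ≤ n, X i ω = p i} *
              ((if G.Adj (p n) w then (12 : ENNReal)⁻¹ else 0) * ENNReal.ofReal (gg k N w)) := by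
            refine ENNReal.tsum_le_tsum fun w => ?_
            refine (ih (n+1) (Function.update p (n+1) w)).trans (le_of_eq ?_)
            rw [srw_step x P X h n p w, Function.update_self, mul_assoc]
        _ = P {ω | ∀ i ≤ n, X i ω = p i} *
              ∑' w : V, ((if G.Adj (p n) w then (12 : ENNReal)⁻¹ else 0) * ENNReal.ofReal (gg k N w)) :=
            ENNReal.tsum_mul_left
        _ = P {ω | ∀ i ≤ n, X i ω = p i} * ENNReal.ofReal (gg k (N+1) (p n)) := by
            congr 1
            rw [tsum_eq_sum (s := Finset.univ.image (fun s => nb s (p n)))]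
            · rw [Finset.sum_image (fun s _ s' _ hh => nb_inj hh), hgg]
              unfold T
              rw [div_eq_inv_mul, ENNReal.ofReal_mul (by norm_num),
                ENNReal.ofReal_sum_of_nonneg (fun s _ => gg_nonneg k N _), Finset.mul_sum]
              refine Finset.sum_congr rfl fun s _ => ?_
              rw [if_pos ((adj_iff _ _).2 ⟨s, rfl⟩)]
              congr 1
              rw [ENNReal.ofReal_inv_of_pos (by norm_num)]
              norm_num
            · intro w hw
              rw [if_neg, zero_mul]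
              rintro ⟨s, hs⟩
              exact hw (Finset.mem_image.2 ⟨s, Finset.mem_univ s, hs⟩)

theorem srw_hits {Ω : Type} [MeasurableSpace Ω] (x : V) (P : Measure Ω) (X : ℕ → Ω → V)
    (h : IsSRW G x P X) : ∀ᵐ ω ∂P, ∀ k : ℤ, ∃ᶠ n in atTop, zz (X n ω) = k := by
  classical
  have := h.prob
  rw [ae_all_iff]
  intro k
  have hn : ∀ n : ℕ, ∀ᵐ ω ∂P, ∃ m, n ≤ m ∧ zz (X m ω) = k := by
    intro n
    have hz : ∀ p : ℕ → V, P {ω | (∀ i ≤ n, X i ω = p i) ∧ ∀ m, n ≤ m → zz (X m ω) ≠ k} = 0 := by
      intro p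
      have h1 : ∀ N, P {ω | (∀ i ≤ n, X i ω = p i) ∧ ∀ m, n ≤ m → zz (X m ω) ≠ k}
          ≤ P {ω | ∀ i ≤ n, X i ω = p i} * ENNReal.ofReal (gg k N (p n)) := by
        intro N
        refine le_trans (measure_mono fun ω hω => ?_) (srw_avoid x P X h k N n p)
        exact ⟨hω.1, fun m hm _ => hω.2 m hm⟩
      have h2 : Tendsto (fun N => P {ω | ∀ i ≤ n, X i ω = p i} * ENNReal.ofReal (gg k N (p n))) atTop
          (𝓝 (P {ω | ∀ i ≤ n, X i ω = p i} * ENNReal.ofReal 0)) :=
        ENNReal.Tendsto.const_mul ((ENNReal.continuous_ofReal.tendsto 0).comp (gg_tendsto k (p n)))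
          (Or.inr (measure_ne_top P _))
      rw [ENNReal.ofReal_zero, mul_zero] at h2
      exact le_antisymm (ge_of_tendsto' h2 h1) bot_le
    rw [ae_iff]
    have hsub : {ω | ¬ ∃ m, n ≤ m ∧ zz (X m ω) = k} ⊆ ⋃ q : Fin (n+1) → V,
        {ω | (∀ i ≤ n, X i ω = (fun i => if hi : i < n + 1 then q ⟨i, hi⟩ else (0, 0)) i) ∧
          ∀ m, n ≤ m → zz (X m ω) ≠ k} := by
      intro ω hω
      rw [Set.mem_ofPred_eq] at hω
      push Not at hω
      rw [Set.mem_iUnion]
      refine ⟨fun i => X i ω, fun i hi => ?_, fun m hm => hω m hm⟩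
      simp only
      rw [dif_pos (by omega)]
    exact measure_mono_null hsub (measure_iUnion_null fun q => hz _)
  have hall := ae_all_iff.2 hn
  filter_upwards [hall] with ω hω
  rw [Filter.frequently_atTop]
  intro a
  obtain ⟨m, hm1, hm2⟩ := hω a
  exact ⟨m, hm1, hm2⟩



/-- the uniform law on the directions -/
noncomputable def stepLaw : Measure S := (PMF.uniformOfFintype S).toMeasure

instance : IsProbabilityMeasure stepLaw := by unfold stepLaw; infer_instance

theorem stepLaw_singleton (s : S) : stepLaw {s} = (12 : ENNReal)⁻¹ := by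
  unfold stepLaw
  rw [PMF.toMeasure_apply_singleton _ _ (MeasurableSet.singleton s), PMF.uniformOfFintype_apply]
  simp

/-- the walk driven by a sequence of directions -/
noncomputable def walk (x : V) : ℕ → (ℕ → S) → V
  | 0, _ => x
  | (n+1), ω => nb (ω n) (walk x n ω)

theorem walk_measurable (x : V) (n : ℕ) : Measurable (walk x n) := by
  induction n with
  | zero => exact measurable_const
  | succ n ih =>
    have h1 : Measurable (fun p : S × V => nb p.1 p.2) := Measurable.of_discrete
    have h2 : Measurable (fun ω : ℕ → S => (ω n, walk x n ω)) := (measurable_pi_apply n).prodMk ih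
    exact h1.comp h2

theorem exists_srw (x : V) : IsSRW G x (Measure.infinitePi (fun _ : ℕ => stepLaw)) (walk x) := by
  classical
  refine ⟨inferInstance, fun n v => walk_measurable x n (MeasurableSet.singleton v), fun n p => ?_⟩
  by_cases h0 : p 0 = x
  · rw [if_pos h0, one_mul]
    by_cases hadj : ∀ i < n, G.Adj (p i) (p (i+1))
    · have hs : ∀ i, ∃ s : S, i < n → nb s (p i) = p (i+1) := by
        intro i
        by_cases hi : i < n
        · obtain ⟨s, hs⟩ := hadj i hi
          exact ⟨s, fun _ => hs⟩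
        · exact ⟨(0, true), fun h => absurd h hi⟩
      choose s hs using hs
      have hset : {ω : ℕ → S | ∀ i ≤ n, walk x i ω = p i}
          = Set.pi ((Finset.range n : Finset ℕ) : Set ℕ) (fun i => {s i}) := by
        ext ω
        rw [Set.mem_pi]
        simp only [Set.mem_ofPred_eq, Finset.coe_range, Set.mem_Iio, Set.mem_singleton_iff]
        constructor
        · intro h i hi
          have h1 := h (i+1) (by omega)
          have h2 := h i (by omega)
          rw [walk, h2, ← hs i hi] at h1
          exact nb_inj h1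
        · intro h i
          induction i with
          | zero => intro _; rw [walk, h0]
          | succ i ih =>
            intro hi
            rw [walk, ih (by omega), h i (by omega), hs i (by omega)]
      rw [hset, Measure.infinitePi_pi _ (fun i _ => MeasurableSet.singleton _)]
      refine Finset.prod_congr rfl fun i hi => ?_
      rw [if_pos (hadj i (Finset.mem_range.1 hi)), stepLaw_singleton, degree_eq]
      norm_num
    · push Not at hadj
      obtain ⟨i, hi, hni⟩ := hadj
      rw [Finset.prod_eq_zero (Finset.mem_range.2 hi) (if_neg hni)]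
      have : {ω : ℕ → S | ∀ i ≤ n, walk x i ω = p i} = ∅ := by
        ext ω
        simp only [Set.mem_ofPred_eq, Set.mem_empty_iff_false, iff_false]
        intro h
        apply hni
        rw [← h i (by omega), ← h (i+1) (by omega), walk]
        exact ⟨_, rfl⟩
      rw [this]; simp
  · rw [if_neg h0, zero_mul]
    have : {ω : ℕ → S | ∀ i ≤ n, walk x i ω = p i} = ∅ := by
      ext ω
      simp only [Set.mem_ofPred_eq, Set.mem_empty_iff_false, iff_false]
      intro h
      exact h0 (h 0 (by omega)).symm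
    rw [this]; simp

/-- `G` is Liouville: every bounded harmonic function (for simple random walk) is constant. -/
def Liouville {V : Type} (G : SimpleGraph V) [G.LocallyFinite] : Prop :=
  ∀ h : V → ℝ, (∃ C, ∀ x, |h x| ≤ C) →
    (∀ x, (G.degree x : ℝ) * h x = ∑ y ∈ G.neighborFinset x, h y) → ∀ x y, h x = h y

/-- The quotient of `G` by the action is Liouville: every bounded function on the set of orbits that
is harmonic for simple random walk on `G` read modulo the action is constant. -/
def QuotientLiouville {V : Type} (G : SimpleGraph V) [G.LocallyFinite] [AddAction ℤ V] : Prop :=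
  ∀ f : AddAction.orbitRel.Quotient ℤ V → ℝ, (∃ C, ∀ a, |f a| ≤ C) →
    (∀ x : V, (G.degree x : ℝ) * f (Quotient.mk (AddAction.orbitRel ℤ V) x)
      = ∑ y ∈ G.neighborFinset x, f (Quotient.mk (AddAction.orbitRel ℤ V) y)) → ∀ a b, f a = f b

/-- `D` contains exactly one vertex of each orbit. -/
def IsFundamentalDomain {V : Type} [AddAction ℤ V] (D : Set V) : Prop :=
  ∀ a : AddAction.orbitRel.Quotient ℤ V, ∃! x, x ∈ D ∧ Quotient.mk (AddAction.orbitRel ℤ V) x = a

theorem rel_iff (v w : V) :
    (@AddAction.orbitRel ℤ V _ act) v w ↔ v.1 = w.1 := by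
  let _ := act
  have h0 : (@AddAction.orbitRel ℤ V _ act) v w ↔ ∃ k : ℤ, (w.1, k + w.2) = v := Iff.rfl
  rw [h0]
  constructor
  · rintro ⟨k, rfl⟩; rfl
  · intro h
    exact ⟨v.2 - w.2, Prod.ext h.symm (by simp)⟩

theorem quotient_liouville : @QuotientLiouville V G _ act := by
  let _ := act
  intro f hf hh a b
  obtain ⟨C, hC⟩ := hf
  set F : W → ℝ := fun x => f (Quotient.mk (@AddAction.orbitRel ℤ V _ act) (x, 0)) with hF
  have hmk : ∀ v : V, f (Quotient.mk (@AddAction.orbitRel ℤ V _ act) v) = F v.1 := by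
    intro v
    have : (Quotient.mk (@AddAction.orbitRel ℤ V _ act) v) = Quotient.mk (@AddAction.orbitRel ℤ V _ act) (v.1, 0) :=
      Quotient.sound ((rel_iff v (v.1, 0)).2 rfl)
    rw [this]
  have hFh : ∀ x, (Fintype.card S : ℝ) * F x = ∑ s, F (x + st s) := by
    intro x
    have h1 := hh (x, 0)
    rw [degree_eq] at h1
    have hcard : Fintype.card S = 12 := by simp
    rw [hcard]
    rw [sum_nbr ((x, 0) : V) (fun w => f (Quotient.mk (@AddAction.orbitRel ℤ V _ act) w))] at h1
    simp only [hmk] at h1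
    exact h1
  have hinv : ∀ s x, F (x + st s) = F x := fun s x =>
    liouville_abelian st F C (fun x => hC _) hFh s x
  have hconst : ∀ n : ℕ, ∀ x, siz x = n → F x = F 0 := by
    intro n
    induction n using Nat.strong_induction_on with
    | _ n ih =>
      intro x hx
      by_cases h0 : x = 0
      · rw [h0]
      · have : ∃ i, x i ≠ 0 := by
          by_contra hno
          push Not at hno
          exact h0 (funext hno)
        obtain ⟨i, hi⟩ := this
        obtain ⟨b, hb⟩ := siz_dec x i hi
        rw [← hinv (i, b) x]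
        exact ih _ (by omega) _ rfl
  induction a using Quotient.inductionOn with
  | _ v =>
    induction b using Quotient.inductionOn with
    | _ w =>
      rw [hmk, hmk, hconst _ _ rfl, hconst _ w.1 rfl]

theorem fund_domain : @IsFundamentalDomain V act D := by
  let _ := act
  intro a
  induction a using Quotient.inductionOn with
  | _ v =>
    refine ⟨(v.1, v.1 0), ⟨rfl, Quotient.sound ((rel_iff _ _).2 rfl)⟩, ?_⟩
    rintro w ⟨h1, h2⟩
    have h3 := (rel_iff w v).1 (Quotient.exact h2)
    have h4 : w.2 = w.1 0 := h1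
    refine Prod.ext h3 ?_
    rw [h4, h3]

/-- There is a connected 12-regular graph `G` with a free action of `ℤ` by automorphisms and a
connected fundamental domain `D` such that the quotient is Liouville and simple random walk on `G`,
from any starting vertex, almost surely visits every translate `k + D` infinitely often, but `G`
is not Liouville. -/
theorem result : ∃ (V : Type) (G : SimpleGraph V) (_ : G.LocallyFinite) (_ : AddAction ℤ V) (D : Set V),
    G.Connected ∧ (∀ x, G.degree x = 12) ∧
    (∀ (k : ℤ) (x y : V), G.Adj (k +ᵥ x) (k +ᵥ y) ↔ G.Adj x y) ∧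
    (∀ (k : ℤ) (x : V), k +ᵥ x = x → k = 0) ∧
    QuotientLiouville G ∧ IsFundamentalDomain D ∧ (G.induce D).Connected ∧
    (∀ x : V, ∃ (Ω : Type) (_ : MeasurableSpace Ω) (P : Measure Ω) (X : ℕ → Ω → V), IsSRW G x P X) ∧
    (∀ (x : V) (Ω : Type) (_ : MeasurableSpace Ω) (P : Measure Ω) (X : ℕ → Ω → V), IsSRW G x P X →
      ∀ᵐ ω ∂P, ∀ k : ℤ, ∃ᶠ n in atTop, ∃ y ∈ D, X n ω = k +ᵥ y) ∧
    ¬ Liouville G := by
  classical
  refine ⟨V, G, inferInstance, act, D, G_connected, degree_eq, ?_, ?_, quotient_liouville,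
    fund_domain, D_connected, ?_, ?_, ?_⟩
  · intro k v w
    show G.Adj (v.1, k + v.2) (w.1, k + w.2) ↔ G.Adj v w
    rw [adj_iff, adj_iff]
    refine exists_congr fun s => ?_
    rw [nb_act]
    constructor
    · intro h
      rw [Prod.mk.injEq] at h
      exact Prod.ext h.1 (add_left_cancel h.2)
    · intro h; rw [h]
  · intro k v h
    have h1 : (v.1, k + v.2) = v := h
    have h2 := congrArg Prod.snd h1
    simp only at h2
    omega
  · exact fun x => ⟨_, _, _, _, exists_srw x⟩
  · intro x Ω _ P X hX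
    filter_upwards [srw_hits x P X hX] with ω hω k
    refine (hω k).mono fun n hn => ?_
    refine ⟨((X n ω).1, (X n ω).1 0), rfl, ?_⟩
    show X n ω = ((X n ω).1, k + (X n ω).1 0)
    refine Prod.ext rfl ?_
    simp only [zz] at hn
    simp only
    omega
  · intro hL
    obtain ⟨h, h1, h2, v, w, h3⟩ := not_liouville
    exact h3 (hL h ⟨1, h1⟩ h2 v w)

end Pool.Agent.Results.MP_09df17_pr.Counterexample
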